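import Mathlib

/-!
# The relaxed bridging constant does not control the bridging constant

The graph `G_h` has the vertices `(i, j)`, `i ≤ h`, `j < 2 ^ (i + 1)`, and `(i, j)` is joined to
`(i, j + 1)`, `(i + 1, 2 j)` and `(i + 1, 2 j + 1)` (a patch of the hyperbolic half-plane). Every long
cycle has a `5`-bridge near its deepest level, so `BGC(G_h) ≤ 9`. But for the boundary cycle the sides
around the upper edge are geodesic in `G_h` and far from the rest of the cycle, so `bgc(G_h)` tends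
to infinity with `h`.
-/

namespace Pool.Agent.Results.MP_936e79_co.HalfPlanePatch

section defs

variable {V : Type}

/-- `c` lists the vertices of a simple cycle of length `n` of `G` in cyclic order. -/
structure IsCyc (G : SimpleGraph V) {n : ℕ} (c : ZMod n → V) : Prop where
  three_le : 3 ≤ n
  inj : Function.Injective c
  adj : ∀ i, G.Adj (c i) (c (i + 1))

/-- The distance along the cycle between its vertices with indices `i`, `j`. -/
def dC {n : ℕ} (i j : ZMod n) : ℕ := min (j - i).val (i - j).val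

/-- The cycle is `μ`-locally geodesic. -/
def LocallyGeodesic (G : SimpleGraph V) {n : ℕ} (c : ZMod n → V) (μ : ℕ) : Prop :=
  ∀ i j, G.dist (c i) (c j) = dC i j → dC i j ≤ μ

/-- The indices `v`, `z` are those of a `k`-bridge. -/
def Bridge (G : SimpleGraph V) {n : ℕ} (c : ZMod n → V) (k : ℕ) (v z : ZMod n) : Prop :=
  G.dist (c v) (c z) ≤ k ∧ k < dC v z

/-- The indices `i, i + 1, ..., i + l` of an arc of length `l`. -/
def arc {n : ℕ} (i : ZMod n) (l : ℕ) : Set (ZMod n) := {j | ∃ t ≤ l, j = i + (t : ℕ)}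

/-- The arc `i, ..., i + (μ + 1)` is a side of non-`μ`-locality. -/
def IsSide (G : SimpleGraph V) {n : ℕ} (c : ZMod n → V) (μ : ℕ) (i : ZMod n) : Prop :=
  dC i (i + ((μ + 1 : ℕ) : ZMod n)) = μ + 1 ∧
    G.dist (c i) (c (i + ((μ + 1 : ℕ) : ZMod n))) = μ + 1

/-- The bridging constant `bgc(G)`: the least `μ ≥ 1` such that for every cycle which is not
`μ`-locally geodesic and every side of non-`μ`-locality `S` there are `v` in `S` and `z` outside `S`
forming a `⌊(μ + 1) / 2⌋`-bridge. -/
noncomputable def bgc (G : SimpleGraph V) : ℕ :=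
  sInf {μ | 1 ≤ μ ∧ ∀ (n : ℕ) (c : ZMod n → V), IsCyc G c → ¬ LocallyGeodesic G c μ →
    ∀ i, IsSide G c μ i → ∃ v ∈ arc i (μ + 1), ∃ z ∉ arc i (μ + 1), Bridge G c ((μ + 1) / 2) v z}

/-- The relaxed bridging constant `BGC(G)`: the least `μ ≥ 1` such that every cycle which is not
`μ`-locally geodesic contains a `⌊(μ + 1) / 2⌋`-bridge. -/
noncomputable def BGC (G : SimpleGraph V) : ℕ :=
  sInf {μ | 1 ≤ μ ∧ ∀ (n : ℕ) (c : ZMod n → V), IsCyc G c → ¬ LocallyGeodesic G c μ →
    ∃ v z, Bridge G c ((μ + 1) / 2) v z}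

end defs

section general

variable {V : Type} {G : SimpleGraph V} {n : ℕ}

theorem val_nat {n : ℕ} {s : ℕ} (hs : s < n) : ((s : ℕ) : ZMod n).val = s := by
  have : NeZero n := ⟨by omega⟩
  rw [ZMod.val_natCast, Nat.mod_eq_of_lt hs]

theorem val_neg_nat {n : ℕ} {s : ℕ} (h0 : 0 < s) (hs : s < n) :
    (-((s : ℕ) : ZMod n)).val = n - s := by
  have : NeZero n := ⟨by omega⟩
  rw [ZMod.neg_val, val_nat hs, if_neg]
  intro h
  have := congrArg ZMod.val h
  rw [val_nat hs, ZMod.val_zero] at this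
  omega

theorem dC_add {n : ℕ} (i : ZMod n) {s : ℕ} (h0 : 0 < s) (hs : s < n) :
    dC i (i + (s : ℕ)) = min s (n - s) := by
  unfold dC
  rw [add_sub_cancel_left, sub_add_cancel_left, val_nat hs, val_neg_nat h0 hs]

theorem dC_two {n : ℕ} [NeZero n] (i j : ZMod n) : 2 * dC i j ≤ n := by
  unfold dC
  have h1 : j - i = -(i - j) := by ring
  rw [h1, ZMod.neg_val]
  have h2 := ZMod.val_lt (i - j)
  split_ifs with h
  · omega
  · omega

theorem dist_adj (_hG : G.Connected) {x y : V} (h : G.Adj x y) : G.dist x y ≤ 1 := by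
  rw [SimpleGraph.dist_eq_one_iff_adj.2 h]

theorem dist_cyc (hG : G.Connected) {c : ZMod n → V} (hc : IsCyc G c) (i : ZMod n) (s : ℕ) :
    G.dist (c i) (c (i + (s : ℕ))) ≤ s := by
  induction s with
  | zero => simp
  | succ s ih =>
    have h1 := hc.adj (i + (s : ℕ))
    have h2 := hG.dist_triangle (u := c i) (v := c (i + (s : ℕ))) (w := c (i + (s : ℕ) + 1))
    have h3 := dist_adj hG h1
    have h4 : i + ((s + 1 : ℕ) : ZMod n) = i + (s : ℕ) + 1 := by push_cast; ring
    rw [h4]
    omega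

/-- A shortcut of a short arc gives a `5`-bridge. -/
theorem bridge_of_short (hG : G.Connected) {c : ZMod n → V} (hc : IsCyc G c) (hn : 20 ≤ n)
    (i : ZMod n) (l : ℕ) (h0 : 0 < l) (hl : l ≤ 7)
    (hd : G.dist (c i) (c (i + (l : ℕ))) < l) (hd5 : G.dist (c i) (c (i + (l : ℕ))) ≤ 5) :
    ∃ v z, Bridge G c 5 v z := by
  by_cases hl7 : l = 7
  · refine ⟨i, i + (l : ℕ), hd5, ?_⟩
    rw [dC_add i h0 (by omega)]
    omega
  · refine ⟨i, i + (6 : ℕ), ?_, ?_⟩
    · have h1 := dist_cyc hG hc (i + (l : ℕ)) (6 - l)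
      have h2 := hG.dist_triangle (u := c i) (v := c (i + (l : ℕ)))
        (w := c (i + (l : ℕ) + ((6 - l : ℕ) : ZMod n)))
      have h3 : i + (l : ℕ) + ((6 - l : ℕ) : ZMod n) = i + (6 : ℕ) := by
        rw [add_assoc, ← Nat.cast_add]
        congr 2
        omega
      rw [h3] at h1 h2
      omega
    · rw [dC_add i (by norm_num) (by omega)]
      omega

theorem lip {F : V → ℤ} (hG : G.Connected) (hF : ∀ x y, G.Adj x y → F y ≤ F x + 1) (x y : V) :
    F y ≤ F x + G.dist x y := by
  obtain ⟨w, hw⟩ := hG.exists_walk_length_eq_dist x y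
  rw [← hw]
  clear hw
  induction w with
  | nil => simp
  | cons h _ ih =>
    have := hF _ _ h
    rw [SimpleGraph.Walk.length_cons]
    push_cast
    omega

end general

/-- The vertices of `G_h`. -/
abbrev Vt (h : ℕ) := {p : ℕ × ℕ // p.1 ≤ h ∧ p.2 < 2 ^ (p.1 + 1)}

instance (h : ℕ) : Finite (Vt h) := by
  apply Set.Finite.to_subtype
  apply ((Set.finite_Iic h).prod (Set.finite_Iio (2 ^ (h + 1)))).subset
  rintro ⟨i, j⟩ ⟨h1, h2⟩
  refine ⟨h1, ?_⟩
  have h3 : 2 ^ (i + 1) ≤ 2 ^ (h + 1) := Nat.pow_le_pow_right (by norm_num) (by simpa using h1)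
  simp only [Set.mem_Iio] at h2 ⊢
  omega

/-- oriented adjacency -/
def rel (p q : ℕ × ℕ) : Prop := (p.1 = q.1 ∧ q.2 = p.2 + 1) ∨ (q.1 = p.1 + 1 ∧ q.2 / 2 = p.2)

/-- The graph `G_h`. -/
def Gh (h : ℕ) : SimpleGraph (Vt h) where
  Adj p q := rel p.1 q.1 ∨ rel q.1 p.1
  symm := ⟨fun p q h => h.symm⟩
  loopless := ⟨by
    rintro p (h | h) <;> · rcases h with ⟨-, h⟩ | ⟨h, -⟩ <;> omega⟩

variable {h : ℕ}

theorem adj_iff {p q : Vt h} : (Gh h).Adj p q ↔ rel p.1 q.1 ∨ rel q.1 p.1 := Iff.rfl

/-- parent -/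
def par (p : Vt h) : Vt h :=
  ⟨(p.1.1 - 1, if p.1.1 = 0 then p.1.2 else p.1.2 / 2), by
    obtain ⟨⟨i, j⟩, h1, h2⟩ := p
    simp only at h1 h2 ⊢
    refine ⟨by omega, ?_⟩
    split_ifs with h3
    · subst h3; exact h2
    · obtain ⟨i, rfl⟩ : ∃ i', i = i' + 1 := ⟨i - 1, by omega⟩
      rw [pow_succ] at h2
      simp only [Nat.add_sub_cancel]
      omega⟩

theorem adj_par {p : Vt h} (hp : 0 < p.1.1) : (Gh h).Adj p (par p) := by
  right
  right
  unfold par
  simp only
  rw [if_neg (by omega)]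
  exact ⟨by omega, rfl⟩

theorem conn : (Gh h).Connected := by
  have h0 : (0 : ℕ) ≤ h ∧ (0 : ℕ) < 2 ^ (0 + 1) := ⟨Nat.zero_le _, by norm_num⟩
  have key : ∀ (i : ℕ) (p : Vt h), p.1.1 = i → (Gh h).Reachable p ⟨(0, 0), h0⟩ := by
    intro i
    induction i with
    | zero =>
      rintro ⟨⟨i, j⟩, h1, h2⟩ hp
      simp only at hp h2
      subst hp
      have : j = 0 ∨ j = 1 := by
        simp at h2
        omega
      rcases this with rfl | rfl
      · exact SimpleGraph.Reachable.refl _
      · apply SimpleGraph.Adj.reachable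
        right; left
        exact ⟨rfl, rfl⟩
    | succ i ih =>
      intro p hp
      have h1 := adj_par (p := p) (by omega)
      refine h1.reachable.trans (ih (par p) ?_)
      unfold par
      simp only
      omega
  rw [SimpleGraph.connected_iff]
  exact ⟨fun a b => (key _ a rfl).trans (key _ b rfl).symm, ⟨⟨(0, 0), h0⟩⟩⟩

/-- horizontal distances -/
theorem dist_hor (s : ℕ) : ∀ p q : Vt h, p.1.1 = q.1.1 → q.1.2 = p.1.2 + s →
    (Gh h).dist p q ≤ s := by
  induction s with
  | zero =>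
    intro p q h1 h2
    have : p = q := Subtype.ext (Prod.ext h1 (by omega))
    rw [this]; simp
  | succ s ih =>
    intro p q h1 h2
    have h3 := q.2.2
    set m : Vt h := ⟨(p.1.1, p.1.2 + s), by
      refine ⟨p.2.1, ?_⟩
      rw [← h1] at h3
      simp only
      omega⟩ with hm
    have h4 := ih p m rfl rfl
    have h5 : (Gh h).Adj m q := Or.inl (Or.inl ⟨h1, by rw [hm]; simp only; omega⟩)
    have h6 := conn.dist_triangle (u := p) (v := m) (w := q)
    have h7 := dist_adj conn h5
    omega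

theorem dist_hor' (s : ℕ) (p q : Vt h) (h1 : p.1.1 = q.1.1) (h2 : q.1.2 ≤ p.1.2 + s)
    (h3 : p.1.2 ≤ q.1.2 + s) : (Gh h).dist p q ≤ s := by
  rcases le_total p.1.2 q.1.2 with h4 | h4
  · have := dist_hor (q.1.2 - p.1.2) p q h1 (by omega)
    omega
  · have := dist_hor (p.1.2 - q.1.2) q p h1.symm (by omega)
    rw [SimpleGraph.dist_comm]
    omega

/-- level -/
theorem lev_lip (p q : Vt h) (hpq : (Gh h).Adj p q) : (q.1.1 : ℤ) ≤ p.1.1 + 1 := by
  rcases hpq with (⟨h1, -⟩ | ⟨h1, -⟩) | (⟨h1, -⟩ | ⟨h1, -⟩) <;> omega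

/-! ### The relaxed constant is at most `9` -/

theorem relaxed (n : ℕ) (c : ZMod n → Vt h) (hc : IsCyc (Gh h) c)
    (hlg : ¬ LocallyGeodesic (Gh h) c 9) : ∃ v z, Bridge (Gh h) c 5 v z := by
  have h3 := hc.three_le
  have : NeZero n := ⟨by omega⟩
  have hn : 20 ≤ n := by
    unfold LocallyGeodesic at hlg
    push Not at hlg
    obtain ⟨i, j, -, h2⟩ := hlg
    have := dC_two i j
    omega
  have hconn := conn (h := h)
  -- distinct indices
  have hidx : ∀ (i : ZMod n) (s t : ℕ), s < n → t < n → s ≠ t →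
      c (i + (s : ℕ)) ≠ c (i + (t : ℕ)) := by
    intro i s t hs ht hst he
    have h1 := add_left_cancel (hc.inj he)
    have h2 := congrArg ZMod.val h1
    rw [val_nat hs, val_nat ht] at h2
    exact hst h2
  have hadj : ∀ (i : ZMod n) (s : ℕ), (Gh h).Adj (c (i + (s : ℕ))) (c (i + ((s + 1 : ℕ) : ZMod n))) := by
    intro i s
    have := hc.adj (i + (s : ℕ))
    rwa [show i + ((s + 1 : ℕ) : ZMod n) = i + (s : ℕ) + 1 by push_cast; ring]
  -- a run on a level is monotone
  have hrun : ∀ (i : ZMod n) (r : ℕ), r < n → (∀ s ≤ r, (c (i + (s : ℕ))).1.1 = (c i).1.1) →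
      (∀ s ≤ r, (c (i + (s : ℕ))).1.2 = (c i).1.2 + s) ∨
      (∀ s ≤ r, (c i).1.2 = (c (i + (s : ℕ))).1.2 + s) := by
    intro i r
    induction r with
    | zero => intro _ _; left; intro s hs; obtain rfl : s = 0 := by omega
              simp
    | succ r ih =>
      intro hr hlev
      have hstep : (c (i + ((r + 1 : ℕ) : ZMod n))).1.2 = (c (i + (r : ℕ))).1.2 + 1 ∨
          (c (i + (r : ℕ))).1.2 = (c (i + ((r + 1 : ℕ) : ZMod n))).1.2 + 1 := by
        have h1 := hlev (r + 1) le_rfl
        have h2 := hlev r (by omega)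
        rcases hadj i r with (⟨_, h4⟩ | ⟨h4, _⟩) | (⟨_, h4⟩ | ⟨h4, _⟩)
        · left; exact h4
        · omega
        · right; exact h4
        · omega
      have hnb : r ≠ 0 → (c (i + ((r + 1 : ℕ) : ZMod n))).1.2 ≠
          (c (i + ((r - 1 : ℕ) : ZMod n))).1.2 := by
        intro hr0 he
        apply hidx i (r + 1) (r - 1) (by omega) (by omega) (by omega)
        apply Subtype.ext
        apply Prod.ext
        · rw [hlev (r + 1) le_rfl, hlev (r - 1) (by omega)]
        · exact he
      rcases ih (by omega) (fun s hs => hlev s (by omega)) with h1 | h1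
      · have h2 := h1 r le_rfl
        rcases hstep with h4 | h4
        · left
          intro s hs
          rcases Nat.lt_or_ge s (r + 1) with h5 | h5
          · exact h1 s (by omega)
          · obtain rfl : s = r + 1 := by omega
            omega
        · by_cases hr0 : r = 0
          · right
            subst hr0
            intro s hs
            have : s = 0 ∨ s = 1 := by omega
            rcases this with rfl | rfl
            · simp
            · simp only [Nat.cast_zero, add_zero] at h2 h4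
              omega
          · exfalso
            have h5 := h1 (r - 1) (by omega)
            apply hnb hr0
            omega
      · have h2 := h1 r le_rfl
        rcases hstep with h4 | h4
        · by_cases hr0 : r = 0
          · left
            subst hr0
            intro s hs
            have : s = 0 ∨ s = 1 := by omega
            rcases this with rfl | rfl
            · simp
            · simp only [Nat.cast_zero, add_zero] at h2 h4
              omega
          · exfalso
            have h5 := h1 (r - 1) (by omega)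
            apply hnb hr0
            omega
        · right
          intro s hs
          rcases Nat.lt_or_ge s (r + 1) with h5 | h5
          · exact h1 s (by omega)
          · obtain rfl : s = r + 1 := by omega
            omega
  -- the deepest level
  obtain ⟨t, ht⟩ := Finite.exists_max (fun i : ZMod n => (c i).1.1)
  set m := (c t).1.1 with hm
  -- not all vertices are on the deepest level
  have hnot : ¬ ∀ i, (c i).1.1 = m := by
    intro hall
    have h1 := hrun t (n - 1) (by omega) (fun s _ => by rw [hall, hall])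
    have h2 := hadj t (n - 1)
    rw [show n - 1 + 1 = n by omega, ZMod.natCast_self, add_zero] at h2
    have h4 := hall (t + ((n - 1 : ℕ) : ZMod n))
    have h6 := hall t
    rcases h1 with h1 | h1
    · have h5 := h1 (n - 1) le_rfl
      rcases h2 with (⟨_, h7⟩ | ⟨h7, _⟩) | (⟨_, h7⟩ | ⟨h7, _⟩) <;> omega
    · have h5 := h1 (n - 1) le_rfl
      rcases h2 with (⟨_, h7⟩ | ⟨h7, _⟩) | (⟨_, h7⟩ | ⟨h7, _⟩) <;> omega
  -- first vertex of a run
  have hfirst : ∃ a : ZMod n, (c a).1.1 ≠ m ∧ (c (a + 1)).1.1 = m := by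
    by_contra hcon
    push Not at hcon
    apply hnot
    intro i
    by_contra hi
    have : ∀ s : ℕ, (c (i + (s : ℕ))).1.1 ≠ m := by
      intro s
      induction s with
      | zero => simpa using hi
      | succ s ih =>
        have := hcon _ ih
        rwa [show i + ((s + 1 : ℕ) : ZMod n) = i + (s : ℕ) + 1 by push_cast; ring]
    apply this (t - i).val
    rw [ZMod.natCast_zmod_val]
    have : i + (t - i) = t := by ring
    rw [this]
  obtain ⟨a, ha, ha1⟩ := hfirst
  -- end of the run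
  have hend : ∃ r, (c (a + 1 + ((r + 1 : ℕ) : ZMod n))).1.1 ≠ m := by
    refine ⟨n - 2, ?_⟩
    rw [show n - 2 + 1 = n - 1 by omega]
    have : a + 1 + ((n - 1 : ℕ) : ZMod n) = a := by
      have h1 : ((n - 1 : ℕ) : ZMod n) = -1 := by
        rw [Nat.cast_sub (by omega), ZMod.natCast_self]
        simp
      rw [h1]; ring
    rw [this]
    exact ha
  classical
  set r := Nat.find hend with hr
  have hr1 := Nat.find_spec hend
  rw [← hr] at hr1
  have hrmin : ∀ s < r, (c (a + 1 + ((s + 1 : ℕ) : ZMod n))).1.1 = m := by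
    intro s hs
    by_contra hcon
    exact Nat.find_min hend hs hcon
  have hlevels : ∀ s ≤ r, (c (a + 1 + (s : ℕ))).1.1 = (c (a + 1)).1.1 := by
    intro s hs
    rw [ha1]
    rcases s with _ | s
    · simpa using ha1
    · exact hrmin s (by omega)
  have hrn : r < n - 2 + 1 := by
    have : r ≤ n - 2 := Nat.find_min' hend (by
      rw [show n - 2 + 1 = n - 1 by omega]
      have : a + 1 + ((n - 1 : ℕ) : ZMod n) = a := by
        have h1 : ((n - 1 : ℕ) : ZMod n) = -1 := by
          rw [Nat.cast_sub (by omega), ZMod.natCast_self]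
          simp
        rw [h1]; ring
      rw [this]
      exact ha)
    omega
  have hcols := hrun (a + 1) r (by omega) hlevels
  -- the ends of the run have their parents on the cycle
  have hpar : ∀ p q : Vt h, (Gh h).Adj p q → p.1.1 = m → q.1.1 ≠ m → q.1.1 ≤ m →
      p.1.1 = q.1.1 + 1 ∧ p.1.2 / 2 = q.1.2 := by
    intro p q hpq hp hq hq'
    rcases hpq with (⟨h4, _⟩ | ⟨h4, _⟩) | (⟨h4, _⟩ | ⟨h4, h5⟩)
    · omega
    · omega
    · omega
    · exact ⟨h4, h5⟩
  have hp1 := hpar (c (a + 1)) (c a) (hc.adj a).symm ha1 ha (ht a)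
  have hlast := hlevels r le_rfl
  rw [ha1] at hlast
  have hp2 := hpar (c (a + 1 + (r : ℕ))) (c (a + 1 + ((r + 1 : ℕ) : ZMod n))) (hadj (a + 1) r)
    hlast hr1 (ht _)
  by_cases hr6 : 6 ≤ r
  · -- long run
    refine bridge_of_short hconn hc hn (a + 1) 6 (by norm_num) (by norm_num) ?_ ?_ <;>
    · have h6 := hlevels 6 hr6
      set p := c (a + 1) with hp
      set q := c (a + 1 + (6 : ℕ)) with hq
      have hpp := adj_par (p := p) (by omega)
      have hqq := adj_par (p := q) (by omega)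
      have hdist : (Gh h).dist (par p) (par q) ≤ 3 := by
        apply dist_hor'
        · unfold par; simp only; omega
        · unfold par; simp only
          rw [if_neg (by omega), if_neg (by omega)]
          rcases hcols with h7 | h7
          · have h8 : q.1.2 = p.1.2 + 6 := h7 6 hr6
            omega
          · have h8 : p.1.2 = q.1.2 + 6 := h7 6 hr6
            omega
        · unfold par; simp only
          rw [if_neg (by omega), if_neg (by omega)]
          rcases hcols with h7 | h7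
          · have h8 : q.1.2 = p.1.2 + 6 := h7 6 hr6
            omega
          · have h8 : p.1.2 = q.1.2 + 6 := h7 6 hr6
            omega
      have t1 := hconn.dist_triangle (u := p) (v := par p) (w := q)
      have t2 := hconn.dist_triangle (u := par p) (v := par q) (w := q)
      have t3 := dist_adj hconn hpp
      have t4 := dist_adj hconn hqq.symm
      omega
  · -- short run
    have hr0 : r ≠ 0 := by
      intro hr0
      rw [hr0] at hp2
      simp only [Nat.cast_zero, add_zero, zero_add] at hp2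
      have h7 : c a = c (a + 1 + ((1 : ℕ) : ZMod n)) := by
        apply Subtype.ext
        apply Prod.ext
        · omega
        · omega
      have h8 := hidx a 0 2 (by omega) (by omega) (by omega)
      apply h8
      rw [Nat.cast_zero, add_zero, h7]
      congr 1
      push_cast
      ring
    have hsum : a + 1 + ((r + 1 : ℕ) : ZMod n) = a + ((r + 2 : ℕ) : ZMod n) := by
      push_cast; ring
    rw [hsum] at hp2
    have hdist : (Gh h).dist (c a) (c (a + ((r + 2 : ℕ) : ZMod n))) ≤ (r + 1) / 2 := by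
      apply dist_hor'
      · omega
      · rcases hcols with h7 | h7 <;> have := h7 r le_rfl <;> omega
      · rcases hcols with h7 | h7 <;> have := h7 r le_rfl <;> omega
    exact bridge_of_short hconn hc hn a (r + 2) (by omega) (by omega) (by omega) (by omega)

/-! ### The boundary cycle -/

/-- A function which changes by at most `1` along edges and by `1` along the boundary path. -/
def F (p : ℕ × ℕ) : ℤ :=
  if p.2 < 2 ^ p.1 then -(Nat.log 2 (2 ^ p.1 - p.2) : ℤ)
  else 1 + (Nat.log 2 (p.2 - 2 ^ p.1 + 1) : ℤ)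

theorem lg_mono {a b : ℕ} (h : a ≤ b) : Nat.log 2 a ≤ Nat.log 2 b := Nat.log_mono_right h

theorem lg_double {a b : ℕ} (ha : 1 ≤ a) (h : b ≤ 2 * a) : Nat.log 2 b ≤ Nat.log 2 a + 1 := by
  have h1 : Nat.log 2 (a * 2) = Nat.log 2 a + 1 := Nat.log_mul_base (by norm_num) (by omega)
  rw [← h1]
  exact lg_mono (by omega)

theorem F_rel {p q : ℕ × ℕ} (h : rel p q) : F q ≤ F p + 1 ∧ F p ≤ F q + 1 := by
  obtain ⟨i, j⟩ := p
  obtain ⟨i', j'⟩ := q
  unfold F
  rcases h with ⟨h1, h2⟩ | ⟨h1, h2⟩
  · simp only at h1 h2 ⊢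
    subst h1 h2
    by_cases h3 : j + 1 < 2 ^ i
    · rw [if_pos h3, if_pos (by omega)]
      have h4 := lg_mono (a := 2 ^ i - (j + 1)) (b := 2 ^ i - j) (by omega)
      have h5 := lg_double (a := 2 ^ i - (j + 1)) (b := 2 ^ i - j) (by omega) (by omega)
      omega
    · rw [if_neg h3]
      by_cases h4 : j < 2 ^ i
      · rw [if_pos h4]
        have h5 : 2 ^ i - j = 1 := by omega
        have h6 : j + 1 - 2 ^ i + 1 = 1 := by omega
        rw [h5, h6]
        simp
      · rw [if_neg h4]
        have h4 := lg_mono (a := j - 2 ^ i + 1) (b := j + 1 - 2 ^ i + 1) (by omega)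
        have h5 := lg_double (a := j - 2 ^ i + 1) (b := j + 1 - 2 ^ i + 1) (by omega) (by omega)
        omega
  · simp only at h1 h2 ⊢
    subst h1 h2
    have h0 : 2 ^ (i + 1) = 2 * 2 ^ i := by ring
    rw [h0]
    by_cases h3 : j' / 2 < 2 ^ i
    · rw [if_pos h3, if_pos (by omega)]
      have h4 := lg_mono (a := 2 ^ i - j' / 2) (b := 2 * 2 ^ i - j') (by omega)
      have h5 := lg_double (a := 2 ^ i - j' / 2) (b := 2 * 2 ^ i - j') (by omega) (by omega)
      omega
    · rw [if_neg h3, if_neg (by omega)]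
      have h4 := lg_mono (a := j' / 2 - 2 ^ i + 1) (b := j' - 2 * 2 ^ i + 1) (by omega)
      have h5 := lg_double (a := j' / 2 - 2 ^ i + 1) (b := j' - 2 * 2 ^ i + 1) (by omega) (by omega)
      omega

theorem F_lip (x y : Vt h) : F y.1 ≤ F x.1 + (Gh h).dist x y := by
  apply lip (F := fun x : Vt h => F x.1) conn
  intro x y hxy
  rcases hxy with hxy | hxy
  · exact (F_rel hxy).1
  · exact (F_rel hxy).2

theorem lev_dist (x y : Vt h) : (y.1.1 : ℤ) ≤ x.1.1 + (Gh h).dist x y :=
  lip (F := fun x : Vt h => (x.1.1 : ℤ)) conn lev_lip x y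

/-- the boundary cycle -/
def bd (h t : ℕ) : ℕ × ℕ :=
  if t ≤ h then (h - t, 0)
  else if t ≤ 2 * h + 1 then (t - h - 1, 2 ^ (t - h) - 1)
  else (h, 2 ^ (h + 1) - 1 - (t - 2 * h - 1))

theorem bd_left {t : ℕ} (ht : t ≤ h) : bd h t = (h - t, 0) := by
  unfold bd; rw [if_pos ht]

theorem bd_right {u : ℕ} (hu : u ≤ h) : bd h (h + 1 + u) = (u, 2 ^ (u + 1) - 1) := by
  unfold bd
  rw [if_neg (by omega), if_pos (by omega), show h + 1 + u - h - 1 = u by omega,
    show h + 1 + u - h = u + 1 by omega]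

theorem bd_bot {u : ℕ} : bd h (2 * h + 2 + u) = (h, 2 ^ (h + 1) - 1 - (u + 1)) := by
  unfold bd
  rw [if_neg (by omega), if_neg (by omega), show 2 * h + 2 + u - 2 * h - 1 = u + 1 by omega]

theorem bd_cases (h t : ℕ) : t ≤ h ∨ (∃ u ≤ h, t = h + 1 + u) ∨ ∃ u, t = 2 * h + 2 + u := by
  rcases Nat.lt_or_ge h t with h1 | h1
  · right
    rcases Nat.lt_or_ge (2 * h + 1) t with h2 | h2
    · right; exact ⟨t - (2 * h + 2), by omega⟩
    · left; exact ⟨t - (h + 1), by omega, by omega⟩
  · left; exact h1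

theorem two_pow_ge (i : ℕ) : i + 1 ≤ 2 ^ i := Nat.lt_two_pow_self

theorem bd_mem (h t : ℕ) : (bd h t).1 ≤ h ∧ (bd h t).2 < 2 ^ ((bd h t).1 + 1) := by
  rcases bd_cases h t with h1 | ⟨u, h1, rfl⟩ | ⟨u, rfl⟩
  · rw [bd_left h1]
    exact ⟨by simp, by positivity⟩
  · rw [bd_right h1]
    have := two_pow_ge (u + 1)
    exact ⟨h1, by simp only; omega⟩
  · rw [bd_bot]
    have := two_pow_ge (h + 1)
    exact ⟨le_rfl, by simp only; omega⟩

theorem bd_inj (h : ℕ) {t t' : ℕ} (ht : t < 2 ^ (h + 1) + 2 * h) (ht' : t' < 2 ^ (h + 1) + 2 * h)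
    (he : bd h t = bd h t') : t = t' := by
  rcases bd_cases h t with h1 | ⟨u, h1, rfl⟩ | ⟨u, rfl⟩ <;>
  rcases bd_cases h t' with h2 | ⟨u', h2, rfl⟩ | ⟨u', rfl⟩
  · rw [bd_left h1, bd_left h2, Prod.mk.injEq] at he
    omega
  · rw [bd_left h1, bd_right h2, Prod.mk.injEq] at he
    have := two_pow_ge (u' + 1)
    omega
  · rw [bd_left h1, bd_bot, Prod.mk.injEq] at he
    omega
  · rw [bd_right h1, bd_left h2, Prod.mk.injEq] at he
    have := two_pow_ge (u + 1)
    omega
  · rw [bd_right h1, bd_right h2, Prod.mk.injEq] at he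
    omega
  · rw [bd_right h1, bd_bot, Prod.mk.injEq] at he
    obtain ⟨h3, h4⟩ := he
    subst h3
    have := two_pow_ge (u + 1)
    omega
  · rw [bd_bot, bd_left h2, Prod.mk.injEq] at he
    omega
  · rw [bd_bot, bd_right h2, Prod.mk.injEq] at he
    obtain ⟨h3, h4⟩ := he
    subst h3
    have := two_pow_ge (h + 1)
    omega
  · rw [bd_bot, bd_bot, Prod.mk.injEq] at he
    omega

theorem bd_adj (h : ℕ) {t : ℕ} (ht : t + 1 < 2 ^ (h + 1) + 2 * h) :
    rel (bd h t) (bd h (t + 1)) ∨ rel (bd h (t + 1)) (bd h t) := by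
  rcases bd_cases h t with h1 | ⟨u, h1, rfl⟩ | ⟨u, rfl⟩
  · rcases Nat.lt_or_ge t h with h2 | h2
    · right; right
      rw [bd_left h1, bd_left (by omega)]
      exact ⟨by simp only; omega, by simp⟩
    · left; left
      obtain rfl : t = h := by omega
      have h3 := bd_right (h := t) (Nat.zero_le t)
      rw [add_zero] at h3
      rw [bd_left h1, h3]
      simp
  · rcases Nat.lt_or_ge u h with h2 | h2
    · left; right
      rw [bd_right h1, show h + 1 + u + 1 = h + 1 + (u + 1) by ring, bd_right (by omega)]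
      refine ⟨rfl, ?_⟩
      have h3 : 2 ^ (u + 1 + 1) = 2 * 2 ^ (u + 1) := by ring
      have := two_pow_ge (u + 1)
      simp only
      omega
    · right; left
      obtain rfl : u = h := by omega
      have h3 := bd_bot (h := u) (u := 0)
      rw [bd_right h1, show u + 1 + u + 1 = 2 * u + 2 + 0 by ring, h3]
      have := two_pow_ge (u + 1)
      refine ⟨rfl, ?_⟩
      simp only
      omega
  · right; left
    rw [bd_bot, show 2 * h + 2 + u + 1 = 2 * h + 2 + (u + 1) by ring, bd_bot]
    refine ⟨rfl, ?_⟩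
    simp only
    omega

theorem bd_last (h : ℕ) (h1 : 1 ≤ h) : rel (bd h 0) (bd h (2 ^ (h + 1) + 2 * h - 1)) := by
  have h2 := two_pow_ge (h + 1)
  rw [bd_left (Nat.zero_le h), show 2 ^ (h + 1) + 2 * h - 1 = 2 * h + 2 + (2 ^ (h + 1) - 3) by omega,
    bd_bot]
  left
  refine ⟨rfl, ?_⟩
  simp only
  omega

theorem F_bd {t : ℕ} (ht : t ≤ 2 * h + 1) : F (bd h t) = (t : ℤ) - h := by
  rcases bd_cases h t with h1 | ⟨u, h1, rfl⟩ | ⟨u, rfl⟩
  · rw [bd_left h1]
    unfold F
    simp only
    rw [if_pos (by positivity), Nat.sub_zero, Nat.log_pow (by norm_num)]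
    omega
  · rw [bd_right h1]
    unfold F
    simp only
    have h3 : 2 ^ (u + 1) = 2 * 2 ^ u := by ring
    have := two_pow_ge u
    rw [if_neg (by omega), show 2 ^ (u + 1) - 1 - 2 ^ u + 1 = 2 ^ u by omega,
      Nat.log_pow (by norm_num)]
    push_cast
    ring
  · omega

/-- the boundary cycle -/
def bc (h : ℕ) (i : ZMod (2 ^ (h + 1) + 2 * h)) : Vt h := ⟨bd h i.val, bd_mem h i.val⟩

theorem bc_cyc (h : ℕ) (h1 : 1 ≤ h) : IsCyc (Gh h) (bc h) := by
  have h2 := two_pow_ge (h + 1)
  have : NeZero (2 ^ (h + 1) + 2 * h) := ⟨by omega⟩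
  have : Fact (1 < 2 ^ (h + 1) + 2 * h) := ⟨by omega⟩
  refine ⟨by omega, ?_, ?_⟩
  · intro i j hij
    have h3 : bd h i.val = bd h j.val := congrArg Subtype.val hij
    exact ZMod.val_injective _ (bd_inj h (ZMod.val_lt i) (ZMod.val_lt j) h3)
  · intro i
    rw [adj_iff]
    show rel (bd h i.val) (bd h (i + 1).val) ∨ rel (bd h (i + 1).val) (bd h i.val)
    have h3 := ZMod.val_lt i
    rw [ZMod.val_add, ZMod.val_one]
    rcases Nat.lt_or_ge (i.val + 1) (2 ^ (h + 1) + 2 * h) with h4 | h4
    · rw [Nat.mod_eq_of_lt h4]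
      exact bd_adj h h4
    · have h5 : i.val = 2 ^ (h + 1) + 2 * h - 1 := by omega
      right
      rw [h5, show 2 ^ (h + 1) + 2 * h - 1 + 1 = 2 ^ (h + 1) + 2 * h by omega, Nat.mod_self]
      exact bd_last h h1

/-- The property in the definition of `bgc` fails for `μ` if `2 μ + 2 ≤ h`. -/
theorem fails {h μ : ℕ} (hμ : 2 * μ + 2 ≤ h) : ∃ i,
    ¬ LocallyGeodesic (Gh h) (bc h) μ ∧ IsSide (Gh h) (bc h) μ i ∧
    ∀ v ∈ arc i (μ + 1), ∀ z, ¬ Bridge (Gh h) (bc h) ((μ + 1) / 2) v z := by
  have hcyc := bc_cyc h (by omega)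
  have h2 := two_pow_ge (h + 1)
  set n := 2 ^ (h + 1) + 2 * h with hn
  have hnz : NeZero n := ⟨by omega⟩
  set i : ZMod n := ((h - μ : ℕ) : ZMod n) with hi
  have hval : ∀ t ≤ μ + 1, (i + ((t : ℕ) : ZMod n)).val = h - μ + t := by
    intro t ht
    rw [hi, ← Nat.cast_add, val_nat (by omega)]
  have hside : IsSide (Gh h) (bc h) μ i := by
    constructor
    · rw [dC_add i (Nat.succ_pos μ) (by omega)]
      omega
    · apply le_antisymm
      · exact dist_cyc conn hcyc i (μ + 1)
      · have h3 := F_lip (bc h i) (bc h (i + ((μ + 1 : ℕ) : ZMod n)))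
        have h4 : F (bc h i).1 = -μ := by
          show F (bd h i.val) = _
          have := hval 0 (by omega)
          rw [Nat.cast_zero, add_zero] at this
          rw [this, F_bd (by omega)]
          omega
        have h5 : F (bc h (i + ((μ + 1 : ℕ) : ZMod n))).1 = 1 := by
          show F (bd h (i + ((μ + 1 : ℕ) : ZMod n)).val) = _
          rw [hval (μ + 1) le_rfl, F_bd (by omega)]
          omega
        rw [h4, h5] at h3
        omega
  refine ⟨i, ?_, hside, ?_⟩
  · intro hlg
    have := hlg i (i + ((μ + 1 : ℕ) : ZMod n)) (by rw [hside.1, hside.2])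
    rw [hside.1] at this
    omega
  · rintro v ⟨t, ht, rfl⟩ z ⟨h3, h4⟩
    have hv := hval t ht
    have hz := ZMod.val_lt z
    rcases Nat.lt_or_ge (2 * h + 1) z.val with h5 | h5
    · -- the bottom
      obtain ⟨u, hu⟩ : ∃ u, z.val = 2 * h + 2 + u := ⟨z.val - (2 * h + 2), by omega⟩
      have h6 : (bc h z).1.1 = h := by
        show (bd h z.val).1 = h
        rw [hu, bd_bot]
      have h7 : (bc h (i + ((t : ℕ) : ZMod n))).1.1 ≤ μ := by
        show (bd h (i + ((t : ℕ) : ZMod n)).val).1 ≤ μ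
        rw [hv]
        rcases Nat.lt_or_ge μ t with h8 | h8
        · rw [show h - μ + t = h + 1 + 0 by omega, bd_right (Nat.zero_le h)]
          exact Nat.zero_le _
        · rw [bd_left (by omega)]
          simp only
          omega
      have h8 := lev_dist (bc h (i + ((t : ℕ) : ZMod n))) (bc h z)
      rw [h6] at h8
      omega
    · have h6 : F (bc h z).1 = (z.val : ℤ) - h := F_bd h5
      have h7 : F (bc h (i + ((t : ℕ) : ZMod n))).1 = ((i + ((t : ℕ) : ZMod n)).val : ℤ) - h := F_bd (by omega)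
      have h8 := F_lip (bc h (i + ((t : ℕ) : ZMod n))) (bc h z)
      have h9 := F_lip (bc h z) (bc h (i + ((t : ℕ) : ZMod n)))
      rw [SimpleGraph.dist_comm] at h9
      rw [h6, h7] at h8 h9
      have h10 : dC (i + ((t : ℕ) : ZMod n)) z ≤ (Gh h).dist (bc h (i + ((t : ℕ) : ZMod n))) (bc h z) := by
        unfold dC
        rcases le_total (i + ((t : ℕ) : ZMod n)).val z.val with h11 | h11
        · have h12 := ZMod.val_sub h11
          omega
        · have h12 := ZMod.val_sub h11
          omega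
      omega

theorem bgc_large (h M : ℕ) (hM : 2 * M + 2 ≤ h) : M < bgc (Gh h) := by
  have hne : (Nat.card (Vt h) + 1) ∈ {μ | 1 ≤ μ ∧ ∀ (n : ℕ) (c : ZMod n → Vt h), IsCyc (Gh h) c →
      ¬ LocallyGeodesic (Gh h) c μ → ∀ i, IsSide (Gh h) c μ i →
      ∃ v ∈ arc i (μ + 1), ∃ z ∉ arc i (μ + 1), Bridge (Gh h) c ((μ + 1) / 2) v z} := by
    refine ⟨by omega, ?_⟩
    intro n c hc hlg
    exfalso
    apply hlg
    intro i j _
    have h3 := hc.three_le
    have : NeZero n := ⟨by omega⟩
    have h1 := dC_two i j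
    have h2 := Nat.card_le_card_of_injective c hc.inj
    rw [Nat.card_zmod] at h2
    omega
  have hmem := Nat.sInf_mem ⟨_, hne⟩
  by_contra hcon
  push Not at hcon
  obtain ⟨h1, h2⟩ := hmem
  have hle : bgc (Gh h) ≤ M := hcon
  obtain ⟨i, h3, h4, h5⟩ := fails (h := h) (μ := bgc (Gh h)) (by omega)
  obtain ⟨v, hv, z, -, hb⟩ := h2 _ _ (bc_cyc h (by omega)) h3 i h4
  exact h5 v hv z hb

theorem BGC_le (h : ℕ) : BGC (Gh h) ≤ 9 :=
  Nat.sInf_le ⟨by norm_num, fun n c hc hlg => relaxed n c hc hlg⟩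

/-- **Theorem.** For every real `c` there is a finite connected graph `G` with
`bgc(G) > c * BGC(G)`. -/
theorem result : ∀ c : ℝ, ∃ (V : Type) (_ : Finite V) (G : SimpleGraph V), G.Connected ∧
    c * (BGC G : ℝ) < (bgc G : ℝ) := by
  intro c
  obtain ⟨M, hM⟩ := exists_nat_ge (9 * |c|)
  refine ⟨Vt (2 * M + 2), inferInstance, Gh (2 * M + 2), conn, ?_⟩
  have h1 : ((BGC (Gh (2 * M + 2)) : ℕ) : ℝ) ≤ 9 := by exact_mod_cast BGC_le (2 * M + 2)
  have h2 : ((M : ℕ) : ℝ) < bgc (Gh (2 * M + 2)) := by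
    exact_mod_cast bgc_large (2 * M + 2) M le_rfl
  have h3 : (0 : ℝ) ≤ BGC (Gh (2 * M + 2)) := Nat.cast_nonneg _
  have h4 : c * (BGC (Gh (2 * M + 2)) : ℝ) ≤ |c| * 9 := by
    calc c * (BGC (Gh (2 * M + 2)) : ℝ) ≤ |c| * (BGC (Gh (2 * M + 2)) : ℝ) :=
          mul_le_mul_of_nonneg_right (le_abs_self c) h3
      _ ≤ |c| * 9 := mul_le_mul_of_nonneg_left h1 (abs_nonneg c)
  linarith

end Pool.Agent.Results.MP_936e79_co.HalfPlanePatch
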